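import Pool.Agent.Helper54.SR.Defs

/-!
# SR-D7a: the quotient of the affine coordinate ring is finite

Weights: `X` has weight `1`, `Y` has weight `d`.  `fqW w` is the span of the classes of `X^a Y^j`
with `a + d j ≤ w`, `j < n`.
-/

set_option autoImplicit false
open scoped Pointwise
open Polynomial Pool.Agent.Helper54.PW

namespace Pool.Agent.Helper54.SR

section rings

variable {S Q : Type} [CommRing S] [CommRing Q] [Algebra S Q]

/-- the span of the monomials of weight at most `w` -/
def fqW (q : S[X][X] →+* Q) (n d w : ℕ) : Submodule S Q :=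
  Submodule.span S ((fun p : ℕ × ℕ => q (C X) ^ p.1 * q X ^ p.2) ''
    {p : ℕ × ℕ | p.1 + d * p.2 ≤ w ∧ p.2 < n})

theorem fqW_fg (q : S[X][X] →+* Q) (n d w : ℕ) : (fqW q n d w).FG := by
  refine Submodule.fg_span (Set.Finite.image _ ?_)
  refine ((Set.finite_Iic w).prod (Set.finite_Iio n)).subset ?_
  rintro ⟨a, j⟩ ⟨h1, h2⟩
  exact ⟨le_trans (Nat.le_add_right _ _) h1, h2⟩

theorem fqW_mono (q : S[X][X] →+* Q) (n d : ℕ) {w w' : ℕ} (h : w ≤ w') :
    fqW q n d w ≤ fqW q n d w' :=
  Submodule.span_mono (Set.image_mono fun _ hp => ⟨hp.1.trans h, hp.2⟩)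

/-- the value of a polynomial times a monomial as a combination of monomials -/
theorem fq_repr (q : S[X][X] →+* Q) (hq : ∀ s, q (C (C s)) = algebraMap S Q s)
    (N : Submodule S Q) (P : S[X][X]) (a j₀ : ℕ)
    (h : ∀ j b, (P.coeff j).coeff b ≠ 0 →
      (P.coeff j).coeff b • (q (C X) ^ (a + b) * q X ^ (j₀ + j)) ∈ N) :
    q (C X) ^ a * q X ^ j₀ * q P ∈ N := by
  have h1 : q P = ∑ j ∈ P.support, ∑ b ∈ (P.coeff j).support,
      (P.coeff j).coeff b • (q (C X) ^ b * q X ^ j) := by
    conv_lhs => rw [P.as_sum_support_C_mul_X_pow, map_sum]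
    refine Finset.sum_congr rfl fun j _ => ?_
    rw [map_mul, map_pow]
    have h2 : q (C (P.coeff j)) =
        ∑ b ∈ (P.coeff j).support, (P.coeff j).coeff b • q (C X) ^ b := by
      conv_lhs => rw [(P.coeff j).as_sum_support_C_mul_X_pow, map_sum, map_sum]
      refine Finset.sum_congr rfl fun b _ => ?_
      rw [map_mul, map_mul, hq, map_pow, map_pow, Algebra.smul_def]
    rw [h2, Finset.sum_mul]
    refine Finset.sum_congr rfl fun b _ => ?_
    rw [smul_mul_assoc]
  rw [h1, Finset.mul_sum]
  refine Submodule.sum_mem _ fun j _ => ?_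
  rw [Finset.mul_sum]
  refine Submodule.sum_mem _ fun b hb => ?_
  have h3 := h j b (Polynomial.mem_support_iff.1 hb)
  have h4 : q (C X) ^ a * q X ^ j₀ * ((P.coeff j).coeff b • (q (C X) ^ b * q X ^ j)) =
      (P.coeff j).coeff b • (q (C X) ^ (a + b) * q X ^ (j₀ + j)) := by
    rw [mul_smul_comm]
    congr 1
    rw [pow_add, pow_add]
    ring
  rwa [h4]

/-- reduction modulo `f` -/
theorem fq_red (q : S[X][X] →+* Q) (hq : ∀ s, q (C (C s)) = algebraMap S Q s)
    (f : S[X][X]) (hf : f.Monic) (hqf : q f = 0) {n d : ℕ} (hn : f.natDegree = n)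
    (hd : ∀ j < n, (f.coeff j).natDegree + d * j ≤ d * n) (j : ℕ) :
    ∀ a, q (C X) ^ a * q X ^ j ∈ fqW q n d (a + d * j) := by
  induction j using Nat.strong_induction_on with
  | _ j ih =>
    intro a
    by_cases hj : j < n
    · exact Submodule.subset_span ⟨(a, j), ⟨le_rfl, hj⟩, rfl⟩
    · obtain ⟨i, rfl⟩ : ∃ i, j = i + n := ⟨j - n, by omega⟩
      have h1 : q (X ^ n - f) = q X ^ n := by rw [map_sub, hqf, sub_zero, map_pow]
      have h2 : q (C X) ^ a * q X ^ (i + n) = q (C X) ^ a * q X ^ i * q (X ^ n - f) := by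
        rw [h1, pow_add]
        ring
      rw [h2]
      refine fq_repr q hq _ _ a i fun l b hb => ?_
      have hln : l < n := by
        by_contra hl
        apply hb
        rw [coeff_sub, coeff_X_pow]
        rcases (not_lt.1 hl).eq_or_lt with rfl | hl'
        · have : f.coeff n = 1 := by
            have := hf.coeff_natDegree
            rwa [hn] at this
          rw [if_pos rfl, this, sub_self, coeff_zero]
        · have h0 : f.coeff l = 0 := Polynomial.coeff_eq_zero_of_natDegree_lt (by omega)
          rw [if_neg hl'.ne', h0, sub_zero, coeff_zero]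
      have hb' : (f.coeff l).coeff b ≠ 0 := by
        intro h0
        apply hb
        rw [coeff_sub, coeff_X_pow, if_neg hln.ne, zero_sub, coeff_neg, h0, neg_zero]
      have hbd : b ≤ (f.coeff l).natDegree := Polynomial.le_natDegree_of_ne_zero hb'
      refine Submodule.smul_mem _ _ ?_
      refine fqW_mono q n d ?_ (ih (i + l) (by omega) (a + b))
      have h3 := hd l hln
      rw [mul_add, mul_add]
      omega

theorem fq_main [IsLocalRing S] (q : S[X][X] →+* Q) (hqs : Function.Surjective q)
    (hq : ∀ s, q (C (C s)) = algebraMap S Q s)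
    (f : S[X][X]) (hf : f.Monic) (hqf : q f = 0) {n d M : ℕ} (hn : f.natDegree = n)
    (hd : ∀ j < n, (f.coeff j).natDegree + d * j ≤ d * n) (H : S[X][X]) (hqH : q H = 0)
    (hH : ∀ j, H.coeff j ≠ 0 → (H.coeff j).natDegree + d * j ≤ M)
    (hHm : ∀ j b, ((C (X ^ M) - H).coeff j).coeff b ∈ IsLocalRing.maximalIdeal S) :
    Module.Finite S Q := by
  have hred := fq_red q hq f hf hqf hn hd
  have hstep : ∀ w, M + d * n ≤ w → fqW q n d (w + 1) ≤ fqW q n d w := by
    intro w hw
    refine Submodule.le_of_le_smul_of_le_jacobson_bot (I := IsLocalRing.maximalIdeal S)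
      (fqW_fg q n d (w + 1)) (IsLocalRing.maximalIdeal_le_jacobson _) ?_
    refine Submodule.span_le.2 ?_
    rintro _ ⟨⟨a, j⟩, ⟨h1, h2⟩, rfl⟩
    simp only at h1 h2
    by_cases hle : a + d * j ≤ w
    · exact Submodule.mem_sup_left (Submodule.subset_span ⟨(a, j), ⟨hle, h2⟩, rfl⟩)
    · refine Submodule.mem_sup_right ?_
      have h3 : d * j ≤ d * n := Nat.mul_le_mul_left _ h2.le
      obtain ⟨a', rfl⟩ : ∃ a', a = a' + M := ⟨a - M, by omega⟩
      have h4 : q (C (X ^ M) - H) = q (C X) ^ M := by
        rw [map_sub, hqH, sub_zero, map_pow, map_pow]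
      have h5 : q (C X) ^ (a' + M) * q X ^ j = q (C X) ^ a' * q X ^ j * q (C (X ^ M) - H) := by
        rw [h4, pow_add]
        ring
      show q (C X) ^ (a' + M) * q X ^ j ∈ _
      rw [h5]
      refine fq_repr q hq _ _ a' j fun l b hb => ?_
      refine Submodule.smul_mem_smul (hHm l b) ?_
      refine fqW_mono q n d ?_ (hred (j + l) (a' + b))
      have hbl : b + d * l ≤ M := by
        by_cases h0 : (H.coeff l).coeff b = 0
        · rw [coeff_sub, coeff_sub, h0, sub_zero, coeff_C] at hb
          by_cases hl : l = 0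
          · rw [if_pos hl, coeff_X_pow] at hb
            by_cases hbM : b = M
            · rw [hl, hbM]
              omega
            · rw [if_neg hbM] at hb
              exact absurd rfl hb
          · rw [if_neg hl, coeff_zero] at hb
            exact absurd rfl hb
        · have h6 : H.coeff l ≠ 0 := by
            intro h7
            rw [h7, coeff_zero] at h0
            exact h0 rfl
          have h7 := hH l h6
          have h8 : b ≤ (H.coeff l).natDegree := Polynomial.le_natDegree_of_ne_zero h0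
          omega
      rw [mul_add]
      omega
  have hall : ∀ w, fqW q n d w ≤ fqW q n d (M + d * n) := by
    intro w
    rcases le_total w (M + d * n) with h | h
    · exact fqW_mono q n d h
    · induction w, h using Nat.le_induction with
      | base => exact le_rfl
      | succ w hw ih => exact (hstep w hw).trans ih
  refine ⟨?_⟩
  have htop : (⊤ : Submodule S Q) = fqW q n d (M + d * n) := by
    refine le_antisymm (fun z _ => ?_) le_top
    obtain ⟨P, rfl⟩ := hqs z
    have h1 := fq_repr q hq (fqW q n d (M + d * n)) P 0 0 fun j b _ =>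
      Submodule.smul_mem _ _ (hall _ (hred (0 + j) (0 + b)))
    rwa [pow_zero, pow_zero, one_mul, one_mul] at h1
  rw [htop]
  exact fqW_fg q n d _

/-- SR-D7a -/
theorem finite_quot {S κ : Type} [CommRing S] [IsLocalRing S] [Field κ] (π : S →+* κ)
    (hπ : Function.Surjective π) (f : S[X][X]) (hf : f.Monic) {n d M : ℕ} (hn : f.natDegree = n)
    (hd : ∀ j < n, (f.coeff j).natDegree + d * j ≤ d * n) (H : S[X][X]) (hHn : H.degree < n)
    (hH : ∀ j, H.coeff j ≠ 0 → (H.coeff j).natDegree + d * j ≤ M)
    (hHπ : H.map (Polynomial.mapRingHom π) = C (X ^ M)) :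
    Module.Finite S (AdjoinRoot f ⧸ Ideal.span {AdjoinRoot.mk f H}) := by
  have _ := hHn
  have hker : RingHom.ker π = IsLocalRing.maximalIdeal S :=
    IsLocalRing.eq_maximalIdeal (RingHom.ker_isMaximal_of_surjective π hπ)
  refine fq_main ((Ideal.Quotient.mk (Ideal.span {AdjoinRoot.mk f H})).comp (AdjoinRoot.mk f))
    (Ideal.Quotient.mk_surjective.comp AdjoinRoot.mk_surjective) (fun s => rfl) f hf ?_ hn hd H ?_
    hH ?_
  · rw [RingHom.comp_apply, AdjoinRoot.mk_self, map_zero]
  · rw [RingHom.comp_apply]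
    exact Ideal.Quotient.eq_zero_iff_mem.2 (Ideal.mem_span_singleton_self _)
  · intro j b
    rw [← hker, RingHom.mem_ker]
    have h1 : (C (X ^ M) - H : S[X][X]).map (Polynomial.mapRingHom π) = 0 := by
      rw [Polynomial.map_sub, hHπ, Polynomial.map_C, map_pow]
      simp
    have h2 := congrArg (fun P : κ[X][X] => (P.coeff j).coeff b) h1
    simp only [Polynomial.coeff_map, Polynomial.coe_mapRingHom, coeff_zero] at h2
    exact h2

end rings

end Pool.Agent.Helper54.SR
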